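import Mathlib

open MvPolynomial

namespace Pool.Agent.Results.MP_f689ce_ag.GrassmannSections

/-- A field is `C1` if every homogeneous polynomial of degree `d ≥ 1` in `n > d` variables has a
nontrivial zero. -/
def IsC1 (k : Type*) [Field k] : Prop :=
  ∀ (n d : ℕ) (f : MvPolynomial (Fin n) k), f.IsHomogeneous d → 1 ≤ d → d < n →
    ∃ x : Fin n → k, x ≠ 0 ∧ eval x f = 0

section coords

variable {k : Type*} [Field k] {N : ℕ} (W : Fin N → Fin (N + 1) → Fin (N + 1) → k)

/-- the linear form `x ↦ ω_i (x, e_j)` -/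
noncomputable def lin (i : Fin N) (j : Fin (N + 1)) : MvPolynomial (Fin (N + 1)) k :=
  ∑ l, C (W i l j) * X l

/-- the square part of the matrix of linear forms -/
noncomputable def matA : Matrix (Fin N) (Fin N) (MvPolynomial (Fin (N + 1)) k) :=
  Matrix.of fun i j => lin W i j.castSucc

/-- the last column -/
noncomputable def colB : Fin N → MvPolynomial (Fin (N + 1)) k := fun i => lin W i (Fin.last N)

lemma lin_homogeneous (i : Fin N) (j : Fin (N + 1)) : (lin W i j).IsHomogeneous 1 := by
  unfold lin
  apply IsHomogeneous.sum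
  intro l _
  have := (isHomogeneous_C (Fin (N + 1)) (W i l j)).mul (isHomogeneous_X k l)
  simpa using this

lemma det_homogeneous : (matA W).det.IsHomogeneous N := by
  rw [Matrix.det_apply]
  apply IsHomogeneous.sum
  intro σ _
  have h1 : (∏ i, matA W (σ i) i).IsHomogeneous (∑ _i : Fin N, 1) := by
    apply IsHomogeneous.prod
    intro i _
    exact lin_homogeneous W _ _
  simp only [Finset.sum_const, Finset.card_univ, Fintype.card_fin, smul_eq_mul, mul_one] at h1
  rcases Int.units_eq_one_or (Equiv.Perm.sign σ) with h | h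
  · rw [h, one_smul]; exact h1
  · rw [h, Units.neg_smul, one_smul]; exact h1.neg

lemma sum_lin (hW0 : ∀ i l, W i l l = 0) (hW : ∀ i l j, W i l j = - W i j l) (i : Fin N) :
    ∑ j, lin W i j * X j = 0 := by
  unfold lin
  simp_rw [Finset.sum_mul]
  rw [← Finset.sum_product']
  refine Finset.sum_involution (fun p _ => (p.2, p.1)) ?_ ?_ ?_ ?_
  · rintro ⟨a, b⟩ _
    simp only
    rw [hW i b a]
    simp only [map_neg]
    ring
  · rintro ⟨a, b⟩ _ h hne
    apply h
    simp only [Prod.mk.injEq] at hne
    obtain ⟨h1, -⟩ := hne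
    subst h1
    simp [hW0]
  · intro p _; simp
  · intro p _; rfl

lemma matA_mulVec (hW0 : ∀ i l, W i l l = 0) (hW : ∀ i l j, W i l j = - W i j l) :
    (matA W).mulVec (fun j => X j.castSucc) = - ((X (Fin.last N) : MvPolynomial (Fin (N + 1)) k) • colB W) := by
  funext i
  have h := sum_lin W hW0 hW i
  rw [Fin.sum_univ_castSucc] at h
  simp only [Matrix.mulVec, dotProduct, matA, Matrix.of_apply, Pi.neg_apply, Pi.smul_apply,
    smul_eq_mul, colB]
  rw [eq_neg_iff_add_eq_zero, mul_comm (X (Fin.last N))]
  exact h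

lemma det_mul_X (hW0 : ∀ i l, W i l l = 0) (hW : ∀ i l j, W i l j = - W i j l) (j : Fin N) :
    (matA W).det * X j.castSucc = - (X (Fin.last N) * (matA W).cramer (colB W) j) := by
  have h := congrArg (fun v => (matA W).adjugate.mulVec v) (matA_mulVec W hW0 hW)
  simp only [Matrix.mulVec_mulVec, Matrix.adjugate_mul, Matrix.mulVec_neg, Matrix.mulVec_smul,
    Matrix.smul_mulVec, Matrix.one_mulVec] at h
  have h2 := congrFun h j
  simp only [Pi.smul_apply, smul_eq_mul, Pi.neg_apply] at h2
  rw [h2, Matrix.cramer_eq_adjugate_mulVec]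

lemma exists_factor (hN : 1 ≤ N) (hW0 : ∀ i l, W i l l = 0) (hW : ∀ i l j, W i l j = - W i j l) :
    ∃ P : MvPolynomial (Fin (N + 1)) k, P.IsHomogeneous (N - 1) ∧
      (matA W).det = X (Fin.last N) * P ∧
      ∀ j, (matA W).cramer (colB W) j = - (P * X j.castSucc) := by
  have hdvd : (X (Fin.last N) : MvPolynomial (Fin (N + 1)) k) ∣ (matA W).det := by
    have hp : Prime (X (Fin.last N) : MvPolynomial (Fin (N + 1)) k) := MvPolynomial.X_prime
    let j : Fin N := ⟨0, hN⟩
    have h1 : (X (Fin.last N) : MvPolynomial (Fin (N + 1)) k) ∣ (matA W).det * X j.castSucc := by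
      rw [det_mul_X W hW0 hW j]
      exact (Dvd.intro _ rfl).neg_right
    rcases hp.dvd_or_dvd h1 with h | h
    · exact h
    · exfalso
      rw [MvPolynomial.X_dvd_X] at h
      exact absurd h.symm (Fin.castSucc_lt_last j).ne
  obtain ⟨P, hP⟩ := hdvd
  refine ⟨P, ?_, hP, ?_⟩
  · intro m hm
    have h1 := det_homogeneous W
    rw [hP] at h1
    have h2 : coeff (Finsupp.single (Fin.last N) 1 + m) (X (Fin.last N) * P) ≠ 0 := by
      rwa [coeff_X_mul]
    have h3 := h1 h2
    rw [map_add] at h3
    simp only [Finsupp.weight_single, Pi.one_apply, smul_eq_mul, mul_one] at h3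
    omega
  · intro j
    have h1 := det_mul_X W hW0 hW j
    rw [hP] at h1
    have h2 : (X (Fin.last N) : MvPolynomial (Fin (N + 1)) k) *
        (P * X j.castSucc + (matA W).cramer (colB W) j) = 0 := by
      rw [mul_add, ← mul_assoc, h1]; ring
    rcases mul_eq_zero.1 h2 with h | h
    · exact absurd h (X_ne_zero _)
    · exact eq_neg_of_add_eq_zero_right h

/-- In coordinates: `N` alternating forms on `k^(N+1)`, `N ≥ 2`, over a `C1` field have a common
isotropic plane. -/
lemma exists_coords (hk : IsC1 k) (hN : 2 ≤ N) (hW0 : ∀ i l, W i l l = 0)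
    (hW : ∀ i l j, W i l j = - W i j l) :
    ∃ u v : Fin (N + 1) → k, (∃ a b, u a ≠ 0 ∧ v a = 0 ∧ v b ≠ 0) ∧
      ∀ i, ∑ j, (∑ l, W i l j * u l) * v j = 0 := by
  obtain ⟨P, hP, hdet, hcr⟩ := exists_factor W (by omega) hW0 hW
  obtain ⟨u, hu0, hu⟩ := hk (N + 1) (N - 1) P hP (by omega) (by omega)
  -- the evaluated matrix and column
  let A : Matrix (Fin N) (Fin N) k := (eval u).mapMatrix (matA W)
  let b : Fin N → k := fun i => eval u (colB W i)
  have hA : A.det = 0 := by
    have := RingHom.map_det (eval u) (matA W)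
    change A.det = 0
    rw [← this, hdet, map_mul, hu, mul_zero]
  have hAij : ∀ i j, A i j = ∑ l, W i l j.castSucc * u l := by
    intro i j
    simp [A, matA, lin, RingHom.mapMatrix_apply]
  have hbi : ∀ i, b i = ∑ l, W i l (Fin.last N) * u l := by
    intro i
    simp [b, colB, lin]
  have hcrA : ∀ j, (A.updateCol j b).det = 0 := by
    intro j
    have h1 := hcr j
    rw [Matrix.cramer_apply] at h1
    have h2 := congrArg (eval u) h1
    rw [RingHom.map_det, map_neg, map_mul, hu, zero_mul, neg_zero] at h2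
    convert h2 using 2
    ext i l
    by_cases hl : l = j
    · subst hl; simp [A, b]
    · simp [A, hl]
  by_cases hlast : u (Fin.last N) = 0
  · obtain ⟨a, ha⟩ : ∃ a, u a ≠ 0 := by
      by_contra hcon
      push Not at hcon
      exact hu0 (funext hcon)
    obtain ⟨j, rfl⟩ : ∃ j : Fin N, a = j.castSucc := by
      rcases Fin.eq_castSucc_or_eq_last a with ⟨j, hj⟩ | h
      · exact ⟨j, hj⟩
      · exact absurd (h ▸ hlast) ha
    obtain ⟨z, hz0, hz⟩ := Matrix.exists_mulVec_eq_zero_iff.2 (hcrA j)
    refine ⟨u, Fin.snoc (Function.update z j 0) (z j), ⟨j.castSucc, ?_⟩, ?_⟩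
    · obtain ⟨l, hl⟩ : ∃ l, z l ≠ 0 := by
        by_contra hcon
        push Not at hcon
        exact hz0 (funext hcon)
      by_cases hlj : l = j
      · subst hlj
        exact ⟨Fin.last N, ha, by simp, by simpa using hl⟩
      · exact ⟨l.castSucc, ha, by simp, by simpa [hlj] using hl⟩
    · intro i
      rw [Fin.sum_univ_castSucc]
      have h1 := congrFun hz i
      simp only [Matrix.mulVec, dotProduct, Pi.zero_apply] at h1
      rw [← Finset.add_sum_erase _ _ (Finset.mem_univ j)] at h1
      rw [← Finset.add_sum_erase _ _ (Finset.mem_univ j)]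
      simp only [Matrix.updateCol_self, hbi] at h1
      simp only [Fin.snoc_castSucc, Function.update_self, mul_zero, zero_add, Fin.snoc_last]
      rw [add_comm]
      rw [← h1]
      congr 1
      apply Finset.sum_congr rfl
      intro l hl
      have hlj : l ≠ j := (Finset.mem_erase.1 hl).1
      rw [Function.update_of_ne hlj, Matrix.updateCol_ne hlj, hAij]
  · obtain ⟨z, hz0, hz⟩ := Matrix.exists_mulVec_eq_zero_iff.2 hA
    refine ⟨u, Fin.snoc z 0, ⟨Fin.last N, ?_⟩, ?_⟩
    · obtain ⟨b, hb⟩ : ∃ b, z b ≠ 0 := by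
        by_contra hcon
        push Not at hcon
        exact hz0 (funext hcon)
      exact ⟨b.castSucc, hlast, by simp, by simpa using hb⟩
    · intro i
      rw [Fin.sum_univ_castSucc]
      have := congrFun hz i
      simp only [Matrix.mulVec, dotProduct, Pi.zero_apply, hAij] at this
      simpa using this

end coords

/-- **Linear sections of `Gr(2, n)` over `C1` fields.** Let `k` be a `C1` field, `V` a `k`-vector
space of finite dimension at least `3`, and `ω` a family of fewer than `dim V` alternating
bilinear forms on `V`.  Then some two-dimensional subspace of `V` is isotropic for all of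
them. -/
theorem result (k : Type*) [Field k] (hk : IsC1 k) (V : Type*) [AddCommGroup V] [Module k V]
    [FiniteDimensional k V] (hV : 3 ≤ Module.finrank k V) (m : ℕ) (hm : m < Module.finrank k V)
    (ω : Fin m → LinearMap.BilinForm k V) (hω : ∀ i v, ω i v v = 0) :
    ∃ U : Submodule k V, Module.finrank k U = 2 ∧ ∀ i, ∀ x ∈ U, ∀ y ∈ U, ω i x y = 0 := by
  obtain ⟨N, hN⟩ : ∃ N, Module.finrank k V = N + 1 := ⟨Module.finrank k V - 1, by omega⟩
  let e : Module.Basis (Fin (N + 1)) k V := Module.finBasisOfFinrankEq k V hN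
  -- pad by zero forms
  let ω' : Fin N → LinearMap.BilinForm k V := fun i => if h : (i : ℕ) < m then ω ⟨i, h⟩ else 0
  have hω' : ∀ i v, ω' i v v = 0 := by
    intro i v
    by_cases h : (i : ℕ) < m
    · simp only [ω', h, dite_true]; exact hω _ _
    · simp [ω', h]
  have hanti : ∀ i v w, ω' i v w = - ω' i w v := by
    intro i v w
    have h := hω' i (v + w)
    simp only [map_add, LinearMap.add_apply, hω', zero_add, add_zero] at h
    exact eq_neg_of_add_eq_zero_left (by rw [add_comm]; exact h)
  let W : Fin N → Fin (N + 1) → Fin (N + 1) → k := fun i l j => ω' i (e l) (e j)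
  obtain ⟨u, v, ⟨a, b, ha, hva, hvb⟩, hiso⟩ := exists_coords W hk (by omega)
    (fun i l => hω' i _) (fun i l j => hanti i _ _)
  let x : V := ∑ l, u l • e l
  let y : V := ∑ j, v j • e j
  have hxy : ∀ i, ω' i x y = 0 := by
    intro i
    rw [← hiso i]
    simp only [x, y, map_sum, map_smul, LinearMap.sum_apply, LinearMap.smul_apply, smul_eq_mul, W,
      Finset.sum_mul, Finset.mul_sum]
    apply Finset.sum_congr rfl
    intro j _
    apply Finset.sum_congr rfl
    intro l _
    ring
  have hind : LinearIndependent k ![x, y] := by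
    rw [LinearIndependent.pair_iff]
    intro s t hst
    have hrepr : ∀ c, s * u c + t * v c = 0 := by
      intro c
      have h1 := congrArg (fun z => e.repr z c) hst
      simpa [x, y, map_sum, Finsupp.single_apply] using h1
    have hs : s = 0 := by
      have := hrepr a
      rw [hva, mul_zero, add_zero] at this
      exact (mul_eq_zero.1 this).resolve_right ha
    refine ⟨hs, ?_⟩
    have := hrepr b
    rw [hs, zero_mul, zero_add] at this
    exact (mul_eq_zero.1 this).resolve_right hvb
  refine ⟨Submodule.span k (Set.range ![x, y]), ?_, ?_⟩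
  · rw [finrank_span_eq_card hind, Fintype.card_fin]
  · intro i p hp q hq
    have hval : ∀ p q, ω' ⟨i, by omega⟩ p q = ω i p q := by
      intro p q
      simp [ω']
    rw [← hval]
    simp only [Matrix.range_cons, Matrix.range_empty, Set.union_empty, Set.singleton_union] at hp hq
    obtain ⟨p1, p2, rfl⟩ := Submodule.mem_span_pair.1 hp
    obtain ⟨q1, q2, rfl⟩ := Submodule.mem_span_pair.1 hq
    have h1 := hxy ⟨i, by omega⟩
    have h2 : ω' ⟨i, by omega⟩ y x = 0 := by rw [hanti, h1, neg_zero]
    simp [h1, h2, hω']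

end Pool.Agent.Results.MP_f689ce_ag.GrassmannSections
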