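import Pool.Agent.Helper37.LG.Final

namespace Pool.Agent.Results.MP_f689ce_ag.LagrangianSections

open Pool.Agent.Helper37.LG

/-- **Linear sections of the Lagrangian Grassmannians over `C1` fields.** Let `k` be a `C1` field of
characteristic not two, `n ≥ 3`, `V` a `k`-vector space of dimension `2 n` with a nondegenerate
alternating bilinear form `ω`, and `φ` a family of three alternating `n`-forms on `V`.  Then `V` has
a Lagrangian subspace on which the three forms vanish. -/
theorem result (k : Type*) [Field k] (hk : IsC1 k) (h2 : (2 : k) ≠ 0) (n : ℕ) (hn : 3 ≤ n)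
    (V : Type*) [AddCommGroup V] [Module k V] [FiniteDimensional k V]
    (hV : Module.finrank k V = 2 * n) (ω : LinearMap.BilinForm k V) (hω : ∀ x, ω x x = 0)
    (hnd : ∀ x, (∀ y, ω x y = 0) → x = 0) (φ : Fin 3 → V [⋀^Fin n]→ₗ[k] k) :
    ∃ U : Submodule k V, Module.finrank k U = n ∧ (∀ x ∈ U, ∀ y ∈ U, ω x y = 0) ∧
      ∀ i, ∀ w : Fin n → V, (∀ j, w j ∈ U) → φ i w = 0 := by
  obtain ⟨v, hv, hvω, hvφ⟩ := family hk h2 n hn V hV ω hω hnd φ
  exact subspace_of_family ω φ v hv hvω hvφ

end Pool.Agent.Results.MP_f689ce_ag.LagrangianSections
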