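import Pool.Agent.Helper45.MK.Final

namespace Pool.Agent.Results.MP_f689ce_ag.MukaiSections

open MvPolynomial

/-- A field is `C1` if every homogeneous polynomial of degree `d ≥ 1` in `n > d` variables has a
nontrivial zero. -/
def IsC1 (k : Type*) [Field k] : Prop :=
  ∀ (n d : ℕ) (f : MvPolynomial (Fin n) k), f.IsHomogeneous d → 1 ≤ d → d < n →
    ∃ x : Fin n → k, x ≠ 0 ∧ eval x f = 0

variable {k : Type*} [Field k]

/-- The Pfaffian of a `4 × 4` alternating matrix. -/
def pf4 (A : Matrix (Fin 4) (Fin 4) k) : k := A 0 1 * A 2 3 - A 0 2 * A 1 3 + A 0 3 * A 1 2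

/-- The ten quadratic equations of the (affine cone over the) spinor tenfold in the half-spin
representation `k ⊕ Λ² k⁵ ⊕ Λ⁴ k⁵` of dimension 16: `A` is an alternating `5 × 5` matrix,
`A v = 0`, and `u v` is the vector of the signed `4 × 4` Pfaffians of `A`. -/
def IsPureSpinor (u : k) (A : Matrix (Fin 5) (Fin 5) k) (v : Fin 5 → k) : Prop :=
  (∀ i, A i i = 0) ∧ (∀ i j, A j i = -A i j) ∧ A.mulVec v = 0 ∧
    ∀ i, u * v i = (-1) ^ (i : ℕ) * pf4 (A.submatrix i.succAbove i.succAbove)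

/-- The `3 × 3` minor with columns `i, j, l` of the matrix with rows `u, v, w`. -/
def minor3 (u v w : Fin 7 → k) (i j l : Fin 7) : k :=
  u i * (v j * w l - v l * w j) - u j * (v i * w l - v l * w i) + u l * (v i * w j - v j * w i)

/-- The three-form `e₀₁₄ + e₀₂₅ + e₀₃₆ + e₁₂₃ - e₄₅₆` on `k⁷`; its stabiliser is the split group
`G₂` (times cube roots of unity). -/
def sigma (u v w : Fin 7 → k) : k :=
  minor3 u v w 0 1 4 + minor3 u v w 0 2 5 + minor3 u v w 0 3 6 + minor3 u v w 1 2 3 -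
    minor3 u v w 4 5 6

/-- The alternating matrix of the bivector `u ∧ v`. -/
def wedge (u v : Fin 5 → k) : Matrix (Fin 5) (Fin 5) k :=
  Matrix.of fun i j => u i * v j - u j * v i

/-- **Mukai sections over `C1` fields.** The prime Fano threefolds of genus 7, 10, 12 and 6 (in
their Mukai models over `k`; and all Fano linear sections of the spinor tenfold and of the
`G₂`-variety) have rational points over every `C1` field `k` of characteristic not two. -/
theorem result (k : Type*) [Field k] (hk : IsC1 k) (h2 : (2 : k) ≠ 0) :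
    -- genus 7: sections of the spinor tenfold by seven hyperplanes
    (∀ f : Fin 7 → (k × Matrix (Fin 5) (Fin 5) k × (Fin 5 → k)) →ₗ[k] k,
      ∃ (u : k) (A : Matrix (Fin 5) (Fin 5) k) (v : Fin 5 → k), (u, A, v) ≠ 0 ∧
        IsPureSpinor u A v ∧ ∀ i, f i (u, A, v) = 0) ∧
    -- genus 10: sections of the `G₂`-variety by two hyperplanes
    (∀ b : Fin 2 → (Fin 7 → k) →ₗ[k] (Fin 7 → k) →ₗ[k] k, (∀ i x, b i x x = 0) →
      ∃ u v : Fin 7 → k, LinearIndependent k ![u, v] ∧ (∀ w, sigma u v w = 0) ∧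
        ∀ i, b i u v = 0) ∧
    -- genus 12: three alternating forms on `k⁷`
    (∀ η : Fin 3 → (Fin 7 → k) →ₗ[k] (Fin 7 → k) →ₗ[k] k, (∀ i x, η i x x = 0) →
      ∃ U : Submodule k (Fin 7 → k), Module.finrank k U = 3 ∧
        ∀ i, ∀ x ∈ U, ∀ y ∈ U, η i x y = 0) ∧
    -- genus 6: Gushel-Mukai threefolds
    (∀ (f : Fin 3 → (k × Matrix (Fin 5) (Fin 5) k) →ₗ[k] k)
      (Q : QuadraticForm k (k × Matrix (Fin 5) (Fin 5) k)),
      ∃ (z : k) (u v : Fin 5 → k), (z, wedge u v) ≠ 0 ∧ (∀ i, f i (z, wedge u v) = 0) ∧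
        Q (z, wedge u v) = 0) :=
  ⟨Pool.Agent.Helper45.MK.genus7 hk h2, Pool.Agent.Helper45.MK.G2.g2 hk h2,
    fun η hη => Pool.Agent.Helper45.MK.genus12 hk (by simp) η hη
      (Pool.Agent.Helper45.MK.odd_kernel h2 (by decide) (η 0) (hη 0)),
    Pool.Agent.Helper45.MK.genus6 hk h2⟩

end Pool.Agent.Results.MP_f689ce_ag.MukaiSections
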