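import Pool.Agent.Helper45.SC1.Closed

namespace Pool.Agent.Results.MP_f689ce_ag.WeightedSystems

open MvPolynomial Pool.Agent.Helper45.SC1

/-- **Weighted systems over `C1` fields.** Let `k` be a `C1` field, `G i` finitely many weighted
homogeneous polynomials of degrees `D i ≥ 1` in finitely many variables of weights `w j ≥ 1`, with
`∑ D i < ∑ w j`.  Then the `G i` have a nontrivial common zero over `k`. -/
theorem result (k : Type*) [Field k] (hk : IsC1 k) (J I : Type*) [Fintype J] [Fintype I]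
    (w : J → ℕ) (hw : ∀ j, 1 ≤ w j) (D : I → ℕ) (hD : ∀ i, 1 ≤ D i) (G : I → MvPolynomial J k)
    (hG : ∀ i, IsWeightedHomogeneous w (G i) (D i)) (h : ∑ i, D i < ∑ j, w j) :
    ∃ y : J → k, y ≠ 0 ∧ ∀ i, eval y (G i) = 0 :=
  strongC1 hk w hw D hD G hG h

end Pool.Agent.Results.MP_f689ce_ag.WeightedSystems
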